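import Pool.Agent.X265.Ngo.Ping
import Pool.Agent.X201.FJ.HypAb

/-!
# Groups generated by two subgroups, one of which retracts to the intersection
-/

set_option autoImplicit false

namespace Pool.Agent.X265.Ngo

open Pool.Agent.Y110.FJ Pool.Agent.X176.FJ Pool.Agent.X201.FJ

variable {C : ∀ (G : Type) [Group G], Prop} {Γ : Type} [Group Γ]

/-- the subgroup generated by two subgroups which play ping-pong in an increasing way, one of which
retracts to the intersection -/
theorem c_gen (hC : ClosedE C) {Ω M : Type*} [MulAction Γ Ω] [Preorder M] (A B : Subgroup Γ)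
    (S T : Set Ω) (μ : Ω → M) (hS : S.Nonempty) (hT : T.Nonempty)
    (hA : ∀ a ∈ A, a ∉ B → ∀ ω ∈ S, a • ω ∈ T ∧ μ ω < μ (a • ω))
    (hB : ∀ b ∈ B, b ∉ A → ∀ ω ∈ T, b • ω ∈ S ∧ μ ω ≤ μ (b • ω))
    (ρ : Γ → Γ) (hρ1 : ∀ a ∈ A, ρ a ∈ A ⊓ B) (hρm : ∀ a ∈ A, ∀ b ∈ A, ρ (a * b) = ρ a * ρ b)
    (hρ : ∀ k ∈ A ⊓ B, ρ k = k) : C ↥(A ⊔ B) ↔ C A ∧ C B := by
  constructor
  · intro h
    exact ⟨hC.base.of_injective _ _ (Subgroup.inclusion le_sup_left)
        (Subgroup.inclusion_injective le_sup_left) h,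
      hC.base.of_injective _ _ (Subgroup.inclusion le_sup_right)
        (Subgroup.inclusion_injective le_sup_right) h⟩
  · rintro ⟨hCA, hCB⟩
    let G := ↥(A ⊔ B)
    let A' : Subgroup G := A.subgroupOf (A ⊔ B)
    let B' : Subgroup G := B.subgroupOf (A ⊔ B)
    have hgen : A' ⊔ B' = ⊤ := by
      show A.subgroupOf (A ⊔ B) ⊔ B.subgroupOf (A ⊔ B) = ⊤
      rw [← Subgroup.subgroupOf_sup le_sup_left le_sup_right, Subgroup.subgroupOf_self]
    have hamg : Amg A' B' (A' ⊓ B') := by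
      refine amg_of_ping A' B' hgen S T μ hS hT ?_ ?_
      · intro a ha hb ω hω
        exact hA a ha hb ω hω
      · intro b hb ha ω hω
        exact hB b hb ha ω hω
    let eA : A' ≃* A := Subgroup.subgroupOfEquivOfLe (le_sup_left : A ≤ A ⊔ B)
    let eB : B' ≃* B := Subgroup.subgroupOfEquivOfLe (le_sup_right : B ≤ A ⊔ B)
    have hCA' : C A' := hC.base.of_injective A' A eA.toMonoidHom eA.injective hCA
    have hCB' : C B' := hC.base.of_injective B' B eB.toMonoidHom eB.injective hCB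
    let r : A' →* ↥(A' ⊓ B') := MonoidHom.mk' (fun a =>
      ⟨⟨ρ ((a : G) : Γ), le_sup_left (a := A) (hρ1 _ a.2).1⟩, (hρ1 _ a.2).1, (hρ1 _ a.2).2⟩) (by
        intro a b
        apply Subtype.ext
        apply Subtype.ext
        exact hρm _ a.2 _ b.2)
    refine c_retract hC hamg r ?_ hCA' hCB'
    intro k
    apply Subtype.ext
    apply Subtype.ext
    exact hρ _ ⟨k.2.1, k.2.2⟩

/-- **kernels of homomorphisms to a group in `C` which are abelian** -/
theorem c_abker (hC : ClosedE C)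
    (hab : ∀ (H : Type) [Group H] (A : Subgroup H) [A.Normal], (∀ a ∈ A, ∀ b ∈ A, a * b = b * a) →
      IsCyclic (H ⧸ A) → C H)
    {G Q : Type} [Group G] [Group Q] (f : G →* Q) (hQ : C Q)
    (h : ∀ a b : G, f a = 1 → f b = 1 → a * b = b * a) : C G := by
  have hq : C (G ⧸ f.ker) := hC.base.of_injective _ _ (QuotientGroup.kerLift f)
    (QuotientGroup.kerLift_injective f) hQ
  refine hyperab hC hab f.ker hq ?_
  intro M hM hlt
  refine ⟨f.ker, inferInstance, hlt, le_rfl, Or.inl ?_⟩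
  intro a ha b hb
  rw [h a b ha hb, mul_inv_cancel_right, mul_inv_cancel]
  exact M.one_mem

end Pool.Agent.X265.Ngo
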