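import Pool.Agent.X265.Ngo.Gen

/-!
# Groups of `2 × 2` matrices over algebras with a degree function
-/

set_option autoImplicit false

namespace Pool.Agent.X265.Ngo

open Pool.Agent.Y110.FJ Pool.Agent.X176.FJ Pool.Agent.X201.FJ

/-- the group of the invertible `2 × 2` matrices -/
abbrev GM (R : Type) [Ring R] := (Matrix (Fin 2) (Fin 2) R)ˣ

section defs

variable (k R : Type) [CommRing k] [Ring R] [Algebra k R]

/-- the matrices over `k` as matrices over `R` -/
def cst : GM k →* GM R :=
  Units.map ((algebraMap k R).mapMatrix : Matrix (Fin 2) (Fin 2) k →+* Matrix (Fin 2) (Fin 2) R)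

/-- the subgroup of the invertible matrices over `R` which is generated by the invertible matrices over
`k` and the upper unitriangular matrices over `R` -/
def EG : Subgroup (GM R) :=
  Subgroup.closure ({g | ∃ h : GM k, g = cst k R h} ∪ {g | ∃ r : R, g.val = !![1, r; 0, 1]})

variable {k R}

theorem cst_apply (h : GM k) (i j : Fin 2) : (cst k R h).val i j = algebraMap k R (h.val i j) := rfl

theorem mul_apply2 {S : Type} [Ring S] (g h : GM S) (i j : Fin 2) :
    (g * h).val i j = g.val i 0 * h.val 0 j + g.val i 1 * h.val 1 j := by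
  rw [Units.val_mul, Matrix.mul_apply, Fin.sum_univ_two]

theorem ext2 {S : Type} [Ring S] {g h : GM S} (h00 : g.val 0 0 = h.val 0 0)
    (h01 : g.val 0 1 = h.val 0 1) (h10 : g.val 1 0 = h.val 1 0) (h11 : g.val 1 1 = h.val 1 1) :
    g = h := by
  apply Units.ext
  ext i j
  fin_cases i <;> fin_cases j
  · exact h00
  · exact h01
  · exact h10
  · exact h11

/-- triangular matrices -/
def ut (S : Type) [Ring S] (a d : Sˣ) (b : S) : GM S where
  val := !![(a : S), b; 0, (d : S)]
  inv := !![((a⁻¹ : Sˣ) : S), -(((a⁻¹ : Sˣ) : S) * b * ((d⁻¹ : Sˣ) : S)); 0, ((d⁻¹ : Sˣ) : S)]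
  val_inv := by
    ext i j
    fin_cases i <;> fin_cases j <;>
      simp [Matrix.mul_apply, Fin.sum_univ_two, mul_assoc]
  inv_val := by
    ext i j
    fin_cases i <;> fin_cases j <;>
      simp [Matrix.mul_apply, Fin.sum_univ_two, mul_assoc]

variable (k R)

/-- the upper triangular matrices with diagonal in `k` -/
def Up : Subgroup (GM R) where
  carrier := {g | g.val 1 0 = 0 ∧ (∃ a : kˣ, g.val 0 0 = algebraMap k R a) ∧
    ∃ d : kˣ, g.val 1 1 = algebraMap k R d}
  one_mem' := ⟨rfl, ⟨1, by simp⟩, ⟨1, by simp⟩⟩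
  mul_mem' := by
    rintro g h ⟨g1, ⟨a, g2⟩, ⟨d, g3⟩⟩ ⟨h1, ⟨a', h2⟩, ⟨d', h3⟩⟩
    refine ⟨?_, ⟨a * a', ?_⟩, ⟨d * d', ?_⟩⟩
    · rw [mul_apply2, g1, h1, zero_mul, mul_zero, add_zero]
    · rw [mul_apply2, g2, h2, h1, mul_zero, add_zero, Units.val_mul, map_mul]
    · rw [mul_apply2, g3, h3, g1, zero_mul, zero_add, Units.val_mul, map_mul]
  inv_mem' := by
    rintro g ⟨g1, ⟨a, g2⟩, ⟨d, g3⟩⟩
    have hinv : ∀ u : kˣ, algebraMap k R ((u⁻¹ : kˣ) : k) * algebraMap k R (u : k) = 1 := by
      intro u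
      rw [← map_mul, Units.inv_mul, map_one]
    have e : g * g⁻¹ = 1 := mul_inv_cancel g
    have e10 : (g * g⁻¹).val 1 0 = 0 := by rw [e]; rfl
    have e11 : (g * g⁻¹).val 1 1 = 1 := by rw [e]; rfl
    have e00 : (g * g⁻¹).val 0 0 = 1 := by rw [e]; rfl
    rw [mul_apply2, g1, g3, zero_mul, zero_add] at e10 e11
    have h10 : (g⁻¹).val 1 0 = 0 := by
      calc (g⁻¹).val 1 0 = (algebraMap k R ((d⁻¹ : kˣ) : k) * algebraMap k R (d : k)) *
            (g⁻¹).val 1 0 := by rw [hinv, one_mul]
        _ = 0 := by rw [mul_assoc, e10, mul_zero]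
    rw [mul_apply2, h10, g2, mul_zero, add_zero] at e00
    refine ⟨h10, ⟨a⁻¹, ?_⟩, ⟨d⁻¹, ?_⟩⟩
    · calc (g⁻¹).val 0 0 = (algebraMap k R ((a⁻¹ : kˣ) : k) * algebraMap k R (a : k)) *
            (g⁻¹).val 0 0 := by rw [hinv, one_mul]
        _ = _ := by rw [mul_assoc, e00, mul_one]
    · calc (g⁻¹).val 1 1 = (algebraMap k R ((d⁻¹ : kˣ) : k) * algebraMap k R (d : k)) *
            (g⁻¹).val 1 1 := by rw [hinv, one_mul]
        _ = _ := by rw [mul_assoc, e11, mul_one]

theorem EG_eq : EG k R = Up k R ⊔ (cst k R).range := by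
  apply le_antisymm
  · unfold EG
    rw [Subgroup.closure_le]
    rintro g (⟨h, rfl⟩ | ⟨r, hr⟩)
    · exact Subgroup.mem_sup_right ⟨h, rfl⟩
    · refine Subgroup.mem_sup_left ⟨?_, ⟨1, ?_⟩, ⟨1, ?_⟩⟩ <;> rw [hr] <;> simp
  · apply sup_le
    · rintro g ⟨g1, ⟨a, g2⟩, ⟨d, g3⟩⟩
      have hg : g = cst k R (ut k a d 0) * ut R 1 1 (algebraMap k R ((a⁻¹ : kˣ) : k) * g.val 0 1) := by
        apply ext2 <;> rw [mul_apply2, cst_apply, cst_apply]
        · rw [g2]; simp [ut]
        · simp only [ut, Matrix.of_apply, Matrix.cons_val', Matrix.cons_val_zero, Matrix.cons_val_one,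
            Matrix.cons_val_fin_one, map_zero, zero_mul, add_zero, Units.val_one]
          rw [← mul_assoc, ← map_mul, Units.mul_inv, map_one, one_mul]
        · rw [g1]; simp [ut]
        · rw [g3]; simp [ut]
      rw [hg]
      apply mul_mem
      · exact Subgroup.subset_closure (Or.inl ⟨_, rfl⟩)
      · exact Subgroup.subset_closure
          (Or.inr ⟨algebraMap k R ((a⁻¹ : kˣ) : k) * g.val 0 1, by simp [ut]⟩)
    · rintro _ ⟨h, rfl⟩
      exact Subgroup.subset_closure (Or.inl ⟨h, rfl⟩)

/-- the action on columns -/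
@[reducible] def act (S : Type) [Ring S] : MulAction (GM S) (Fin 2 → S) where
  smul g w := g.val.mulVec w
  one_smul w := Matrix.one_mulVec w
  mul_smul g h w := (Matrix.mulVec_mulVec w g.val h.val).symm

end defs

section retr

variable {k R : Type} [CommRing k] [Ring R] [Algebra k R]

theorem tau_aux (p : R →ₗ[k] k) {g00 h11 x y : R} {a d : k} (hg : g00 = algebraMap k R a)
    (hh : h11 = algebraMap k R d) : p (g00 * x + y * h11) = a * p x + p y * d := by
  rw [map_add, hg, hh, ← Algebra.smul_def, map_smul, ← Algebra.commutes,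
    ← Algebra.smul_def, map_smul, smul_eq_mul, smul_eq_mul, mul_comm (p y)]

/-- the retraction -/
noncomputable def tau (hinj : Function.Injective (algebraMap k R)) (p : R →ₗ[k] k) :
    Up k R →* GM k where
  toFun g := ut k g.2.2.1.choose g.2.2.2.choose (p (g.1.val 0 1))
  map_one' := by
    have h1 : ((1 : Up k R).2.2.1.choose : k) = 1 := by
      apply hinj
      rw [← (1 : Up k R).2.2.1.choose_spec, map_one]
      rfl
    have h2 : ((1 : Up k R).2.2.2.choose : k) = 1 := by
      apply hinj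
      rw [← (1 : Up k R).2.2.2.choose_spec, map_one]
      rfl
    apply ext2
    · exact h1
    · show p ((1 : Matrix (Fin 2) (Fin 2) R) 0 1) = (1 : Matrix (Fin 2) (Fin 2) k) 0 1
      rw [Matrix.one_apply_ne (by decide), Matrix.one_apply_ne (by decide), map_zero]
    · rfl
    · exact h2
  map_mul' := by
    intro g h
    have g2 := g.2.2.1.choose_spec
    have g3 := g.2.2.2.choose_spec
    have h2 := h.2.2.1.choose_spec
    have h3 := h.2.2.2.choose_spec
    have m2 := (g * h).2.2.1.choose_spec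
    have m3 := (g * h).2.2.2.choose_spec
    have g1 := g.2.1
    have h1 := h.2.1
    have e2 : ((g * h).2.2.1.choose : k) = g.2.2.1.choose * h.2.2.1.choose := by
      apply hinj
      rw [← m2, map_mul, ← g2, ← h2]
      show (g.1 * h.1).val 0 0 = _
      rw [mul_apply2, h1, mul_zero, add_zero]
    have e3 : ((g * h).2.2.2.choose : k) = g.2.2.2.choose * h.2.2.2.choose := by
      apply hinj
      rw [← m3, map_mul, ← g3, ← h3]
      show (g.1 * h.1).val 1 1 = _
      rw [mul_apply2, g1, zero_mul, zero_add]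
    apply ext2
    · rw [mul_apply2]
      show ((g * h).2.2.1.choose : k) = g.2.2.1.choose * h.2.2.1.choose + _ * 0
      rw [e2, mul_zero, add_zero]
    · rw [mul_apply2]
      show p ((g.1 * h.1).val 0 1) = g.2.2.1.choose * p (h.1.val 0 1) +
        p (g.1.val 0 1) * h.2.2.2.choose
      rw [mul_apply2]
      exact tau_aux p g2 h3
    · rw [mul_apply2]
      show (0 : k) = 0 * _ + _ * 0
      rw [zero_mul, mul_zero, add_zero]
    · rw [mul_apply2]
      show ((g * h).2.2.2.choose : k) = 0 * _ + g.2.2.2.choose * h.2.2.2.choose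
      rw [e3, zero_mul, zero_add]

variable {C : ∀ (G : Type) [Group G], Prop}

/-- **groups of `2 × 2` matrices over algebras with a degree function** -/
theorem c_EG (hC : ClosedE C)
    (hab : ∀ (H : Type) [Group H] (A : Subgroup H) [A.Normal], (∀ a ∈ A, ∀ b ∈ A, a * b = b * a) →
      IsCyclic (H ⧸ A) → C H)
    {Γ₀ : Type*} [LinearOrderedCommGroupWithZero Γ₀] (v : Valuation R Γ₀)
    (hk : ∀ c : k, c ≠ 0 → v (algebraMap k R c) = 1)
    (hR : ∀ r : R, (∀ c : k, algebraMap k R c ≠ r) → 1 < v r)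
    (p : R →ₗ[k] k) (hp : ∀ c : k, p (algebraMap k R c) = c) :
    C ↥(EG k R) ↔ C (GM k) := by
  classical
  have hinj : Function.Injective (algebraMap k R) := by
    rw [injective_iff_map_eq_zero]
    intro c hc
    by_contra h
    have := hk c h
    rw [hc, map_zero] at this
    exact zero_ne_one this
  have hk' : ∀ c : k, v (algebraMap k R c) ≤ 1 := by
    intro c
    by_cases h : c = 0
    · rw [h, map_zero, map_zero]; exact zero_le_one
    · exact (hk c h).le
  have hunit : ∀ u : kˣ, v (algebraMap k R (u : k)) = 1 := by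
    intro u
    refine hk _ ?_
    intro h
    have h1 : (1 : k) = 0 := by rw [← u.mul_inv, h, zero_mul]
    have h2 : (1 : R) = 0 := by rw [← map_one (algebraMap k R), h1, map_zero]
    have h3 : v (1 : R) = v 0 := by rw [h2]
    rw [map_one, map_zero] at h3
    exact one_ne_zero h3
  have hpos : ∀ r : R, r ≠ 0 → 0 < v r := by
    intro r hr
    by_cases h : ∃ c : k, algebraMap k R c = r
    · obtain ⟨c, rfl⟩ := h
      rw [hk c (by rintro rfl; exact hr (map_zero _))]
      exact zero_lt_one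
    · push Not at h
      exact zero_lt_one.trans (hR r h)
  let _ := act R
  have hsm : ∀ (g : GM R) (w : Fin 2 → R) (i : Fin 2), (g • w) i = g.val i 0 * w 0 + g.val i 1 * w 1 := by
    intro g w i
    show (g.val.mulVec w) i = _
    rw [Matrix.mulVec, dotProduct, Fin.sum_univ_two]
  let τ := tau hinj p
  let ρ : GM R → GM R := fun g => if h : g ∈ Up k R then cst k R (τ ⟨g, h⟩) else 1
  have hρe : ∀ (g : GM R) (h : g ∈ Up k R), ρ g = cst k R (τ ⟨g, h⟩) := fun g h => dif_pos h
  have hUp : C (Up k R) ↔ C (Up k R) := Iff.rfl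
  have key := c_gen (C := C) hC (Ω := Fin 2 → R) (M := Γ₀) (Up k R) (cst k R).range
    {w | w 1 ≠ 0 ∧ v (w 0) ≤ v (w 1)} {w | v (w 1) < v (w 0)} (fun w => max (v (w 0)) (v (w 1)))
    ⟨![0, 1], by
      refine ⟨?_, ?_⟩
      · show (1 : R) ≠ 0
        intro h
        have h3 : v (1 : R) = v 0 := by rw [h]
        rw [map_one, map_zero] at h3
        exact one_ne_zero h3
      · show v (0 : R) ≤ v 1
        rw [map_zero]; exact zero_le⟩
    ⟨![1, 0], by
      show v (0 : R) < v 1
      rw [map_zero, map_one]; exact zero_lt_one⟩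
    ?_ ?_ ρ ?_ ?_ ?_
  · rw [EG_eq, key]
    have e1 : C (cst k R).range ↔ C (GM k) := by
      have hinj' : Function.Injective (cst k R) := by
        intro g h hgh
        have : ∀ i j, g.val i j = h.val i j := by
          intro i j
          apply hinj
          rw [← cst_apply, ← cst_apply, hgh]
        exact ext2 (this 0 0) (this 0 1) (this 1 0) (this 1 1)
      let e := MonoidHom.ofInjective hinj'
      exact ⟨fun h => hC.base.of_injective _ _ e.toMonoidHom e.injective h,
        fun h => hC.base.of_injective _ _ e.symm.toMonoidHom e.symm.injective h⟩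
    rw [e1]
    refine ⟨fun h => h.2, fun h => ⟨?_, h⟩⟩
    refine c_abker hC hab τ h ?_
    intro g h hg hh
    have q : ∀ g : Up k R, τ g = 1 → g.1.val 0 0 = 1 ∧ g.1.val 1 1 = 1 := by
      intro g hg
      refine ⟨?_, ?_⟩
      · have e1 : (τ g).val 0 0 = 1 := by rw [hg]; rfl
        have e2 : ((g.2.2.1.choose : kˣ) : k) = 1 := e1
        rw [g.2.2.1.choose_spec, e2, map_one]
      · have e1 : (τ g).val 1 1 = 1 := by rw [hg]; rfl
        have e2 : ((g.2.2.2.choose : kˣ) : k) = 1 := e1
        rw [g.2.2.2.choose_spec, e2, map_one]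
    obtain ⟨a1, a2⟩ := q g hg
    obtain ⟨b1, b2⟩ := q h hh
    apply Subtype.ext
    show g.1 * h.1 = h.1 * g.1
    have c1 := g.2.1
    have c2 := h.2.1
    apply ext2 <;> rw [mul_apply2, mul_apply2] <;>
      simp only [a1, b1, a2, b2, c1, c2, one_mul, mul_one, mul_zero, zero_mul, add_zero, zero_add]
    exact add_comm _ _
  · -- the triangular matrices
    rintro g ⟨g1, ⟨a, g2⟩, ⟨d, g3⟩⟩ hgL w ⟨hw1, hw2⟩
    have hb : 1 < v (g.val 0 1) := by
      apply hR
      intro c hc
      apply hgL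
      refine ⟨ut k a d c, ?_⟩
      apply ext2
      · rw [cst_apply, g2]; rfl
      · rw [cst_apply, ← hc]; rfl
      · rw [cst_apply, g1]; exact map_zero _
      · rw [cst_apply, g3]; rfl
    have hv1 : v ((g • w) 1) = v (w 1) := by
      rw [hsm, g1, g3, zero_mul, zero_add, map_mul, hunit, one_mul]
    have hlt : v (w 1) < v (g.val 0 1 * w 1) := by
      rw [map_mul]
      exact (lt_mul_iff_one_lt_left (hpos _ hw1)).2 hb
    have hv0 : v ((g • w) 0) = v (g.val 0 1 * w 1) := by
      rw [hsm, g2]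
      apply Valuation.map_add_eq_of_lt_right
      rw [map_mul, hunit, one_mul]
      exact hw2.trans_lt hlt
    refine ⟨?_, ?_⟩
    · show v ((g • w) 1) < v ((g • w) 0)
      rw [hv1, hv0]; exact hlt
    · show max (v (w 0)) (v (w 1)) < max (v ((g • w) 0)) (v ((g • w) 1))
      rw [max_eq_right hw2, hv0]
      exact lt_max_of_lt_left hlt
  · -- the constant matrices
    rintro _ ⟨h, rfl⟩ hU w hw
    have hw' : v (w 1) < v (w 0) := hw
    have h10 : h.val 1 0 ≠ 0 := by
      intro h0
      apply hU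
      have hdet : IsUnit (h.val.det) := (Matrix.isUnit_iff_isUnit_det _).1 h.isUnit
      rw [Matrix.det_fin_two, h0, mul_zero, sub_zero] at hdet
      obtain ⟨u0, hu0⟩ := isUnit_of_mul_isUnit_left hdet
      obtain ⟨u1, hu1⟩ := isUnit_of_mul_isUnit_right hdet
      refine ⟨?_, ⟨u0, ?_⟩, ⟨u1, ?_⟩⟩
      · rw [cst_apply, h0, map_zero]
      · rw [cst_apply, hu0]
      · rw [cst_apply, hu1]
    have hle : ∀ (c : k) (x : R), v (algebraMap k R c * x) ≤ v x := by
      intro c x
      rw [map_mul]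
      exact mul_le_of_le_one_left zero_le (hk' c)
    have hv1 : v ((cst k R h • w) 1) = v (w 0) := by
      rw [hsm, cst_apply, cst_apply]
      have h1 : v (algebraMap k R (h.val 1 0) * w 0) = v (w 0) := by
        rw [map_mul, hk _ h10, one_mul]
      rw [Valuation.map_add_eq_of_lt_left, h1]
      rw [h1]
      exact (hle _ _).trans_lt hw'
    have hv0 : v ((cst k R h • w) 0) ≤ v (w 0) := by
      rw [hsm, cst_apply, cst_apply]
      refine (Valuation.map_add_le v (hle _ _) ((hle _ _).trans hw'.le))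
    refine ⟨⟨?_, ?_⟩, ?_⟩
    · intro h0
      rw [h0, map_zero] at hv1
      exact absurd ((zero_le).trans_lt hw') (by rw [← hv1]; exact lt_irrefl _)
    · rw [hv1]; exact hv0
    · show max (v (w 0)) (v (w 1)) ≤ max (v ((cst k R h • w) 0)) (v ((cst k R h • w) 1))
      rw [max_eq_left hw'.le, hv1]
      exact le_max_right _ _
  · -- the retraction
    intro g hg
    rw [hρe g hg]
    refine ⟨⟨?_, ⟨hg.2.1.choose, rfl⟩, ⟨hg.2.2.choose, rfl⟩⟩, ⟨_, rfl⟩⟩
    exact map_zero (algebraMap k R)
  · intro g hg h hh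
    rw [hρe g hg, hρe h hh, hρe _ (mul_mem hg hh), ← map_mul, ← map_mul]
    rfl
  · rintro g ⟨hg, h, rfl⟩
    rw [hρe _ hg]
    congr 1
    apply ext2
    · apply hinj
      show algebraMap k R (hg.2.1.choose : k) = _
      rw [← hg.2.1.choose_spec, cst_apply]
    · exact hp _
    · apply hinj
      show algebraMap k R 0 = _
      rw [map_zero, ← cst_apply, hg.1]
    · apply hinj
      show algebraMap k R (hg.2.2.choose : k) = _
      rw [← hg.2.2.choose_spec, cst_apply]

end retr

end Pool.Agent.X265.Ngo
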