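import Pool.Agent.X176.FJ.Retr

/-!
# Amalgamated products recognised by an action

A group generated by two subgroups `A` and `B` is the amalgamated product of `A` and `B` over `A ∩ B`
if no alternating product is trivial; this is checked by an action with a quantity that increases.
-/

set_option autoImplicit false

namespace Pool.Agent.X265.Ngo

open Pool.Agent.Y110.FJ

variable {G : Type} [Group G]

/-- neighbouring letters do not lie in the same subgroup -/
def Alt (A B : Subgroup G) (x y : G) : Prop := ¬ (x ∈ A ∧ y ∈ A) ∧ ¬ (x ∈ B ∧ y ∈ B)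

theorem exists_bad {α : Type} {R : α → α → Prop} (l : List α) (h : ¬ l.IsChain R) :
    ∃ l₁ x y l₂, l = l₁ ++ x :: y :: l₂ ∧ ¬ R x y := by
  induction l with
  | nil => exact absurd List.IsChain.nil h
  | cons a l ih =>
    cases l with
    | nil => exact absurd (List.IsChain.singleton a) h
    | cons b l =>
      by_cases h1 : R a b
      · have h2 : ¬ (b :: l).IsChain R := fun h3 => h (List.IsChain.cons_cons h1 h3)
        obtain ⟨l₁, x, y, l₂, h4, h5⟩ := ih h2
        exact ⟨a :: l₁, x, y, l₂, by rw [h4]; rfl, h5⟩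
      · exact ⟨[], a, b, l, rfl, h1⟩

section crit

variable (A B : Subgroup G) (H : Type) [Group H] (F : G → H)
  (hFA : ∀ a ∈ A, ∀ b ∈ A, F (a * b) = F a * F b) (hFB : ∀ a ∈ B, ∀ b ∈ B, F (a * b) = F a * F b)
  (hred : ∀ l : List G, (∀ x ∈ l, x ∈ A ∨ x ∈ B) → l.IsChain (Alt A B) → 2 ≤ l.length → l.prod ≠ 1)

include hFA hFB hred in
theorem map_prod_one (n : ℕ) : ∀ l : List G, l.length = n → (∀ x ∈ l, x ∈ A ∨ x ∈ B) → l.prod = 1 →
    (l.map F).prod = 1 := by
  induction n using Nat.strong_induction_on with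
  | _ n ih =>
    intro l hl hm h1
    by_cases hch : l.IsChain (Alt A B)
    · match l, hl, hm, h1, hch with
      | [], _, _, _, _ => rfl
      | [x], _, _, h1, _ =>
        rw [List.prod_singleton] at h1
        rw [List.map_singleton, List.prod_singleton, h1]
        have := hFA 1 A.one_mem 1 A.one_mem
        rw [one_mul] at this
        exact (left_eq_mul.1 this)
      | x :: y :: l', hl, hm, h1, hch =>
        exact absurd h1 (hred _ hm hch (by simp))
    · obtain ⟨l₁, x, y, l₂, rfl, hxy⟩ := exists_bad l hch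
      have hmx : x ∈ A ∨ x ∈ B := hm x (by simp)
      have hmul : F (x * y) = F x * F y ∧ (x * y ∈ A ∨ x * y ∈ B) := by
        unfold Alt at hxy
        by_cases hA : x ∈ A ∧ y ∈ A
        · exact ⟨hFA x hA.1 y hA.2, Or.inl (A.mul_mem hA.1 hA.2)⟩
        · have hB : x ∈ B ∧ y ∈ B := by
            by_contra hB
            exact hxy ⟨hA, hB⟩
          exact ⟨hFB x hB.1 y hB.2, Or.inr (B.mul_mem hB.1 hB.2)⟩
      have h2 := ih (l₁ ++ (x * y) :: l₂).length (by rw [← hl]; simp) (l₁ ++ (x * y) :: l₂) rfl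
        (by
          intro z hz
          rw [List.mem_append, List.mem_cons] at hz
          rcases hz with hz | rfl | hz
          · exact hm z (by simp [hz])
          · exact hmul.2
          · exact hm z (by simp [hz]))
        (by
          rw [← h1]
          simp [mul_assoc])
      rw [← h2]
      simp only [List.map_append, List.map_cons, List.prod_append, List.prod_cons, hmul.1, mul_assoc]

end crit

/-- a group generated by two subgroups in which no alternating product is trivial is their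
amalgamated product -/
theorem amg_of_red (A B : Subgroup G) (hgen : A ⊔ B = ⊤)
    (hred : ∀ l : List G, (∀ x ∈ l, x ∈ A ∨ x ∈ B) → l.IsChain (Alt A B) → 2 ≤ l.length →
      l.prod ≠ 1) : Amg A B (A ⊓ B) := by
  refine ⟨inf_le_left, inf_le_right, hgen, ?_⟩
  intro H _ f g hfg
  classical
  let F : G → H := fun x => if h : x ∈ A then f ⟨x, h⟩ else if h' : x ∈ B then g ⟨x, h'⟩ else 1
  have hF1 : ∀ (x : G) (h : x ∈ A), F x = f ⟨x, h⟩ := fun x h => dif_pos h
  have hF2 : ∀ (x : G) (h : x ∈ B), F x = g ⟨x, h⟩ := by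
    intro x h
    by_cases hA : x ∈ A
    · rw [hF1 x hA]
      exact hfg x ⟨hA, h⟩
    · show (if h : x ∈ A then f ⟨x, h⟩ else if h' : x ∈ B then g ⟨x, h'⟩ else 1) = _
      rw [dif_neg hA, dif_pos h]
  have hFA : ∀ a ∈ A, ∀ b ∈ A, F (a * b) = F a * F b := by
    intro a ha b hb
    rw [hF1 _ ha, hF1 _ hb, hF1 _ (A.mul_mem ha hb), ← map_mul]
    rfl
  have hFB : ∀ a ∈ B, ∀ b ∈ B, F (a * b) = F a * F b := by
    intro a ha b hb
    rw [hF2 _ ha, hF2 _ hb, hF2 _ (B.mul_mem ha hb), ← map_mul]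
    rfl
  have hone : ∀ l : List G, (∀ x ∈ l, x ∈ A ∨ x ∈ B) → l.prod = 1 → (l.map F).prod = 1 :=
    fun l => map_prod_one A B H F hFA hFB hred l.length l rfl
  -- inverses
  have hFinv : ∀ x : G, (x ∈ A ∨ x ∈ B) → F x⁻¹ = (F x)⁻¹ := by
    rintro x (h | h)
    · rw [hF1 _ h, hF1 _ (A.inv_mem h), ← map_inv]; rfl
    · rw [hF2 _ h, hF2 _ (B.inv_mem h), ← map_inv]; rfl
  have hinv : ∀ l : List G, (∀ x ∈ l, x ∈ A ∨ x ∈ B) →
      ((l.map (·⁻¹)).reverse.map F).prod = ((l.map F).prod)⁻¹ := by
    intro l hl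
    rw [List.map_reverse, List.map_map, List.prod_inv_reverse, List.map_map]
    congr 2
    apply List.map_congr_left
    intro x hx
    exact hFinv x (hl x hx)
  have huniq : ∀ l l' : List G, (∀ x ∈ l, x ∈ A ∨ x ∈ B) → (∀ x ∈ l', x ∈ A ∨ x ∈ B) →
      l.prod = l'.prod → (l.map F).prod = (l'.map F).prod := by
    intro l l' hl hl' h
    have h1 := hone (l ++ (l'.map (·⁻¹)).reverse) (by
      intro x hx
      rw [List.mem_append, List.mem_reverse, List.mem_map] at hx
      rcases hx with hx | ⟨y, hy, rfl⟩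
      · exact hl x hx
      · exact (hl' y hy).imp A.inv_mem B.inv_mem) (by
      rw [List.prod_append, h, ← List.prod_inv_reverse, mul_inv_cancel])
    rw [List.map_append, List.prod_append, hinv l' hl', mul_inv_eq_one] at h1
    exact h1
  have hex : ∀ x : G, ∃ l : List G, (∀ y ∈ l, y ∈ A ∨ y ∈ B) ∧ l.prod = x := by
    intro x
    have hx : x ∈ Subgroup.closure ((A : Set G) ∪ B) := by
      rw [Subgroup.closure_union, Subgroup.closure_eq, Subgroup.closure_eq, hgen]
      exact Subgroup.mem_top x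
    induction hx using Subgroup.closure_induction with
    | mem y hy => exact ⟨[y], by simpa using hy, List.prod_singleton⟩
    | one => exact ⟨[], by simp, rfl⟩
    | mul y z _ _ hy hz =>
      obtain ⟨l, hl, h1⟩ := hy
      obtain ⟨l', hl', h2⟩ := hz
      refine ⟨l ++ l', ?_, by rw [List.prod_append, h1, h2]⟩
      intro w hw
      rcases List.mem_append.1 hw with h | h
      · exact hl w h
      · exact hl' w h
    | inv y _ hy =>
      obtain ⟨l, hl, h1⟩ := hy
      refine ⟨(l.map (·⁻¹)).reverse, ?_, by rw [← List.prod_inv_reverse, h1]⟩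
      intro w hw
      rw [List.mem_reverse, List.mem_map] at hw
      obtain ⟨u, hu, rfl⟩ := hw
      exact (hl u hu).imp A.inv_mem B.inv_mem
  choose L hL1 hL2 using hex
  let h : G →* H := MonoidHom.mk' (fun x => ((L x).map F).prod) (by
    intro x y
    show ((L (x * y)).map F).prod = ((L x).map F).prod * ((L y).map F).prod
    rw [← List.prod_append, ← List.map_append]
    apply huniq _ _ (hL1 _)
    · intro z hz
      rcases List.mem_append.1 hz with h | h
      · exact hL1 _ z h
      · exact hL1 _ z h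
    · rw [hL2, List.prod_append, hL2, hL2])
  have hh : ∀ x : G, (x ∈ A ∨ x ∈ B) → h x = F x := by
    intro x hx
    show ((L x).map F).prod = F x
    rw [huniq (L x) [x] (hL1 x) (by simpa using hx) (by rw [hL2, List.prod_singleton])]
    simp
  exact ⟨h, fun a => (hh a (Or.inl a.2)).trans (hF1 _ a.2), fun b => (hh b (Or.inr b.2)).trans
    (hF2 _ b.2)⟩

open scoped Classical in
/-- the action -/
theorem ping {Ω M : Type*} [MulAction G Ω] [Preorder M] (A B : Subgroup G) (S T : Set Ω) (μ : Ω → M)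
    (hA : ∀ a ∈ A, a ∉ B → ∀ ω ∈ S, a • ω ∈ T ∧ μ ω < μ (a • ω))
    (hB : ∀ b ∈ B, b ∉ A → ∀ ω ∈ T, b • ω ∈ S ∧ μ ω ≤ μ (b • ω)) :
    ∀ (l : List G) (x z : G), (∀ y ∈ x :: l, (y ∈ A ∧ y ∉ B) ∨ (y ∈ B ∧ y ∉ A)) →
      (x :: l).IsChain (fun u v => u ∈ A ↔ v ∉ A) → (x :: l).getLast? = some z →
      (z ∈ A → ∀ ω ∈ S, ((x :: l).prod • ω ∈ (if x ∈ A then T else S)) ∧
        μ ω < μ ((x :: l).prod • ω)) ∧
      (z ∉ A → ∀ ω ∈ T, ((x :: l).prod • ω ∈ (if x ∈ A then T else S)) ∧
        μ ω ≤ μ ((x :: l).prod • ω) ∧ (l ≠ [] → μ ω < μ ((x :: l).prod • ω))) := by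
  intro l
  induction l with
  | nil =>
    intro x z hm _ hz
    have hxz : x = z := by simpa using hz
    subst hxz
    rcases hm x (by simp) with ⟨h1, h2⟩ | ⟨h1, h2⟩
    · refine ⟨fun _ ω hω => ?_, fun h => absurd h1 h⟩
      rw [List.prod_singleton, if_pos h1]
      exact hA x h1 h2 ω hω
    · refine ⟨fun h => absurd h h2, fun _ ω hω => ?_⟩
      rw [List.prod_singleton, if_neg h2]
      obtain ⟨h3, h4⟩ := hB x h1 h2 ω hω
      exact ⟨h3, h4, fun h => absurd rfl h⟩
  | cons y l ih =>
    intro x z hm hch hz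
    have hm' : ∀ u ∈ y :: l, (u ∈ A ∧ u ∉ B) ∨ (u ∈ B ∧ u ∉ A) := fun u hu => hm u (by simp [hu])
    rw [List.isChain_cons_cons] at hch
    obtain ⟨hxy, hch'⟩ := hch
    have hz' : (y :: l).getLast? = some z := by
      rw [List.getLast?_cons_cons] at hz
      exact hz
    obtain ⟨ih1, ih2⟩ := ih y z hm' hch' hz'
    -- the first letter
    have hstep : ∀ ω', ω' ∈ (if y ∈ A then T else S) →
        (x • ω' ∈ (if x ∈ A then T else S)) ∧ μ ω' ≤ μ (x • ω') ∧ (x ∈ A → μ ω' < μ (x • ω')) := by
      intro ω' hω'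
      rcases hm x (by simp) with ⟨h1, h2⟩ | ⟨h1, h2⟩
      · have hy : y ∉ A := hxy.1 h1
        rw [if_neg hy] at hω'
        obtain ⟨h3, h4⟩ := hA x h1 h2 ω' hω'
        rw [if_pos h1]
        exact ⟨h3, h4.le, fun _ => h4⟩
      · have hy : y ∈ A := by
          by_contra hy
          exact h2 (hxy.2 hy)
        rw [if_pos hy] at hω'
        obtain ⟨h3, h4⟩ := hB x h1 h2 ω' hω'
        rw [if_neg h2]
        exact ⟨h3, h4, fun h => absurd h h2⟩
    refine ⟨fun hzA ω hω => ?_, fun hzA ω hω => ?_⟩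
    · obtain ⟨h1, h2⟩ := ih1 hzA ω hω
      obtain ⟨h3, h4, _⟩ := hstep _ h1
      rw [List.prod_cons, mul_smul]
      exact ⟨h3, h2.trans_le h4⟩
    · obtain ⟨h1, h2, h2'⟩ := ih2 hzA ω hω
      obtain ⟨h3, h4, h5⟩ := hstep _ h1
      rw [List.prod_cons, mul_smul]
      refine ⟨h3, h2.trans h4, fun _ => ?_⟩
      by_cases hx : x ∈ A
      · exact h2.trans_lt (h5 hx)
      · have hl : l ≠ [] := by
          rintro rfl
          have hyz : y = z := by simpa using hz'
          subst hyz
          exact hzA (by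
            by_contra hy
            exact hx (hxy.2 hy))
        exact (h2' hl).trans_le h4

/-- **the criterion** -/
theorem amg_of_ping {Ω M : Type*} [MulAction G Ω] [Preorder M] (A B : Subgroup G)
    (hgen : A ⊔ B = ⊤) (S T : Set Ω) (μ : Ω → M) (hS : S.Nonempty) (hT : T.Nonempty)
    (hA : ∀ a ∈ A, a ∉ B → ∀ ω ∈ S, a • ω ∈ T ∧ μ ω < μ (a • ω))
    (hB : ∀ b ∈ B, b ∉ A → ∀ ω ∈ T, b • ω ∈ S ∧ μ ω ≤ μ (b • ω)) : Amg A B (A ⊓ B) := by
  apply amg_of_red A B hgen
  intro l hm hch hlen h1
  -- no letter lies in both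
  have hboth : ∀ y ∈ l, (y ∈ A ∧ y ∉ B) ∨ (y ∈ B ∧ y ∉ A) := by
    have key : ∀ (l : List G) (x y : G), (∀ u ∈ x :: y :: l, u ∈ A ∨ u ∈ B) →
        (x :: y :: l).IsChain (Alt A B) → ∀ u ∈ x :: y :: l, ¬ (u ∈ A ∧ u ∈ B) := by
      intro l
      induction l with
      | nil =>
        intro x y hm hch u hu ⟨huA, huB⟩
        rw [List.isChain_cons_cons] at hch
        have h := hch.1
        have hx := hm x (by simp)
        have hy := hm y (by simp)
        have hu' : u = x ∨ u = y := by simpa using hu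
        rcases hu' with rfl | rfl
        · rcases hy with hy | hy
          · exact h.1 ⟨huA, hy⟩
          · exact h.2 ⟨huB, hy⟩
        · rcases hx with hx | hx
          · exact h.1 ⟨hx, huA⟩
          · exact h.2 ⟨hx, huB⟩
      | cons w l ih =>
        intro x y hm hch u hu ⟨huA, huB⟩
        rw [List.isChain_cons_cons] at hch
        rcases List.mem_cons.1 hu with rfl | hu
        · rcases hm y (by simp) with hy | hy
          · exact hch.1.1 ⟨huA, hy⟩
          · exact hch.1.2 ⟨huB, hy⟩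
        · exact ih y w (fun v hv => hm v (List.mem_cons_of_mem _ hv)) hch.2 u hu ⟨huA, huB⟩
    match l, hm, hch, hlen with
    | x :: y :: l', hm, hch, _ =>
      intro u hu
      have h2 := key l' x y hm hch u hu
      rcases hm u hu with h | h
      · exact Or.inl ⟨h, fun h' => h2 ⟨h, h'⟩⟩
      · exact Or.inr ⟨h, fun h' => h2 ⟨h', h⟩⟩
  have hch' : l.IsChain (fun u v => u ∈ A ↔ v ∉ A) := by
    have key : ∀ l : List G, (∀ y ∈ l, (y ∈ A ∧ y ∉ B) ∨ (y ∈ B ∧ y ∉ A)) →
        l.IsChain (Alt A B) → l.IsChain (fun u v => u ∈ A ↔ v ∉ A) := by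
      intro l
      induction l with
      | nil => intro _ _; exact List.IsChain.nil
      | cons x l ih =>
        intro hb hc
        cases l with
        | nil => exact List.IsChain.singleton x
        | cons y l =>
          rw [List.isChain_cons_cons] at hc ⊢
          refine ⟨⟨fun hx hy => hc.1.1 ⟨hx, hy⟩, fun hy => ?_⟩,
            ih (fun v hv => hb v (List.mem_cons_of_mem _ hv)) hc.2⟩
          by_contra hx
          rcases hb x (by simp) with h | h
          · exact hx h.1
          · rcases hb y (by simp) with h' | h'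
            · exact hy h'.1
            · exact hc.1.2 ⟨h.1, h'.1⟩
    exact key l hboth hch
  match l, hboth, hch', hlen, h1 with
  | x :: y :: l', hboth, hch', _, h1 =>
    obtain ⟨z, hz⟩ : ∃ z, (x :: y :: l').getLast? = some z :=
      ⟨_, List.getLast?_eq_getLast_of_ne_nil (List.cons_ne_nil _ _)⟩
    obtain ⟨k1, k2⟩ := ping A B S T μ hA hB (y :: l') x z hboth hch' hz
    by_cases hzA : z ∈ A
    · obtain ⟨ω, hω⟩ := hS
      have := (k1 hzA ω hω).2
      rw [h1, one_smul] at this
      exact lt_irrefl _ this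
    · obtain ⟨ω, hω⟩ := hT
      have := (k2 hzA ω hω).2.2 (List.cons_ne_nil _ _)
      rw [h1, one_smul] at this
      exact lt_irrefl _ this

end Pool.Agent.X265.Ngo
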