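import Pool.Agent.X265.Ngo.Gl2

/-!
# Polynomial rings
-/

set_option autoImplicit false

namespace Pool.Agent.X265.Ngo

open Pool.Agent.Y110.FJ
open scoped Polynomial
open Polynomial (natDegree_one natDegree_mul natDegree_add_le)

open scoped Classical in
/-- the degree as a valuation -/
noncomputable def degV (k : Type) [CommRing k] [IsDomain k] : Valuation k[X] (WithZero (Multiplicative ℤ)) where
  toFun p := if p = 0 then 0 else ((Multiplicative.ofAdd (p.natDegree : ℤ) : Multiplicative ℤ) :
    WithZero (Multiplicative ℤ))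
  map_zero' := if_pos rfl
  map_one' := by
    rw [if_neg one_ne_zero, natDegree_one]
    rfl
  map_mul' p q := by
    by_cases hp : p = 0
    · subst hp; simp
    · by_cases hq : q = 0
      · subst hq; simp
      · rw [if_neg (mul_ne_zero hp hq), if_neg hp, if_neg hq, natDegree_mul hp hq, ← WithZero.coe_mul,
          ← ofAdd_add, Nat.cast_add]
  map_add_le_max' p q := by
    by_cases hp : p = 0
    · subst hp; simp
    · by_cases hq : q = 0
      · subst hq; simp
      · by_cases hpq : p + q = 0
        · rw [if_pos hpq]; exact zero_le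
        · rw [if_neg hpq, if_neg hp, if_neg hq]
          rcases le_max_iff.1 (natDegree_add_le p q) with h | h
          · refine le_max_of_le_left ?_
            rw [WithZero.coe_le_coe, Multiplicative.ofAdd_le]
            exact_mod_cast h
          · refine le_max_of_le_right ?_
            rw [WithZero.coe_le_coe, Multiplicative.ofAdd_le]
            exact_mod_cast h

theorem degV_of_ne {k : Type} [CommRing k] [IsDomain k] {p : k[X]} (hp : p ≠ 0) :
    degV k p = ((Multiplicative.ofAdd (p.natDegree : ℤ) : Multiplicative ℤ) :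
      WithZero (Multiplicative ℤ)) := if_neg hp

/-- `GL_2(k[X])` is generated by `GL_2(k)` and the elementary matrices -/
theorem EG_poly (k : Type) [Field k] : EG k k[X] = ⊤ := by
  rw [EG_eq, eq_top_iff]
  have key : ∀ (n : ℕ) (g : GM k[X]), (g.val 1 0 = 0 ∨ (g.val 1 0).natDegree < n) →
      g ∈ Up k k[X] ⊔ (cst k k[X]).range := by
    intro n
    induction n with
    | zero =>
      rintro g (h0 | h)
      · apply Subgroup.mem_sup_left
        have hdet : IsUnit (g.val.det) := (Matrix.isUnit_iff_isUnit_det _).1 g.isUnit
        rw [Matrix.det_fin_two, h0, mul_zero, sub_zero] at hdet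
        obtain ⟨a, ha, ha'⟩ := Polynomial.isUnit_iff.1 (isUnit_of_mul_isUnit_left hdet)
        obtain ⟨d, hd, hd'⟩ := Polynomial.isUnit_iff.1 (isUnit_of_mul_isUnit_right hdet)
        obtain ⟨a, rfl⟩ := ha
        obtain ⟨d, rfl⟩ := hd
        exact ⟨h0, ⟨a, ha'.symm⟩, ⟨d, hd'.symm⟩⟩
      · exact absurd h (Nat.not_lt_zero _)
    | succ n ih =>
      rintro g (h0 | h)
      · exact ih g (Or.inl h0)
      · by_cases h0 : g.val 1 0 = 0
        · exact ih g (Or.inl h0)
        · let q := g.val 0 0 / g.val 1 0
          let w : GM k := ⟨!![0, 1; 1, 0], !![0, 1; 1, 0],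
            by ext i j; fin_cases i <;> fin_cases j <;> simp [Matrix.mul_apply, Fin.sum_univ_two],
            by ext i j; fin_cases i <;> fin_cases j <;> simp [Matrix.mul_apply, Fin.sum_univ_two]⟩
          have h1 : (cst k k[X] w * ut k[X] 1 1 (-q) * g).val 1 0 = g.val 0 0 % g.val 1 0 := by
            have hq : g.val 0 0 % g.val 1 0 = g.val 0 0 - g.val 1 0 * q :=
              EuclideanDomain.mod_eq_sub_mul_div _ _
            rw [mul_apply2, mul_apply2, mul_apply2, cst_apply, cst_apply, hq]
            have w0 : w.val 1 0 = 1 := rfl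
            have w1 : w.val 1 1 = 0 := rfl
            have u0 : (ut k[X] 1 1 (-q)).val 0 0 = 1 := rfl
            have u1 : (ut k[X] 1 1 (-q)).val 0 1 = -q := rfl
            rw [w0, w1, u0, u1]
            simp
            ring
          have h2 : cst k k[X] w * ut k[X] 1 1 (-q) * g ∈ Up k k[X] ⊔ (cst k k[X]).range := by
            apply ih
            rw [h1]
            by_cases h3 : g.val 0 0 % g.val 1 0 = 0
            · exact Or.inl h3
            · right
              have h4 : (g.val 0 0 % g.val 1 0).degree < (g.val 1 0).degree :=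
                EuclideanDomain.mod_lt (g.val 0 0) h0
              have h5 := (Polynomial.natDegree_lt_natDegree_iff h3).2 h4
              omega
          have h3 : g = (cst k k[X] w * ut k[X] 1 1 (-q))⁻¹ * (cst k k[X] w * ut k[X] 1 1 (-q) * g) := by
            group
          rw [h3]
          refine mul_mem (inv_mem (mul_mem ?_ ?_)) h2
          · exact Subgroup.mem_sup_right ⟨w, rfl⟩
          · apply Subgroup.mem_sup_left
            exact ⟨rfl, ⟨1, by simp [ut]⟩, ⟨1, by simp [ut]⟩⟩
  intro g _
  exact key ((g.val 1 0).natDegree + 1) g (Or.inr (Nat.lt_succ_self _))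

variable {C : ∀ (G : Type) [Group G], Prop}

/-- **`GL_2(k[X])`** -/
theorem c_GL2_poly (hC : ClosedE C)
    (hab : ∀ (H : Type) [Group H] (A : Subgroup H) [A.Normal], (∀ a ∈ A, ∀ b ∈ A, a * b = b * a) →
      IsCyclic (H ⧸ A) → C H) (k : Type) [Field k] : C (GM k[X]) ↔ C (GM k) := by
  have h1 : C ↥(EG k k[X]) ↔ C (GM k) := by
    refine c_EG hC hab (degV k) ?_ ?_ (Polynomial.lcoeff k 0) ?_
    · intro c hc
      have : (algebraMap k k[X] c) = Polynomial.C c := rfl
      rw [this, degV_of_ne (by simpa using hc), Polynomial.natDegree_C]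
      rfl
    · intro r hr
      have h0 : r ≠ 0 := by
        rintro rfl
        exact hr 0 (map_zero _)
      have h2 : 0 < r.natDegree := by
        by_contra h
        have h3 : r.natDegree = 0 := by omega
        exact hr (r.coeff 0) (Polynomial.eq_C_of_natDegree_eq_zero h3).symm
      rw [degV_of_ne h0]
      show ((1 : Multiplicative ℤ) : WithZero (Multiplicative ℤ)) < _
      rw [WithZero.coe_lt_coe]
      show Multiplicative.ofAdd (0 : ℤ) < _
      rw [Multiplicative.ofAdd_lt]
      exact_mod_cast h2
    · intro c
      exact Polynomial.coeff_C_zero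
  rw [← h1, EG_poly]
  let e : (⊤ : Subgroup (GM k[X])) ≃* GM k[X] := Subgroup.topEquiv
  exact ⟨fun h => hC.base.of_injective _ _ e.toMonoidHom e.injective h,
    fun h => hC.base.of_injective _ _ e.symm.toMonoidHom e.symm.injective h⟩

end Pool.Agent.X265.Ngo
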