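import Pool.Agent.X265.Ngo.Gl2

/-!
# Tame automorphisms of the polynomial ring in two variables which fix the origin
-/

set_option autoImplicit false

namespace Pool.Agent.X265.Ngo

open Pool.Agent.Y110.FJ Pool.Agent.X176.FJ Pool.Agent.X201.FJ
open MvPolynomial (aeval X algHom_ext)
open scoped Polynomial

variable (k : Type) [CommRing k]

/-- the polynomial ring in two variables -/
abbrev P2 := MvPolynomial (Fin 2) k

/-- the group generated by the linear automorphisms and the automorphisms `(x + p(y), y)` with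
`p(0) = 0` -/
noncomputable def TA : Subgroup (P2 k ≃ₐ[k] P2 k) :=
  Subgroup.closure ({φ | ∃ M : GM k, ∀ i, φ (X i) = ∑ j, M.val i j • X j} ∪
    {φ | ∃ p : k[X], p.coeff 0 = 0 ∧ φ (X 0) = X 0 + Polynomial.aeval (X 1) p ∧ φ (X 1) = X 1})

section lin

variable {k}

/-- linear substitutions -/
noncomputable def lsub (M : Matrix (Fin 2) (Fin 2) k) : P2 k →ₐ[k] P2 k :=
  aeval (fun i => ∑ j, M i j • X j)

theorem lsub_X (M : Matrix (Fin 2) (Fin 2) k) (i : Fin 2) :
    lsub M (X i) = ∑ j, M i j • X j := MvPolynomial.aeval_X _ _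

theorem lsub_comp (M N : Matrix (Fin 2) (Fin 2) k) : (lsub M).comp (lsub N) = lsub (N * M) := by
  apply algHom_ext
  intro i
  rw [AlgHom.comp_apply, lsub_X, lsub_X, map_sum]
  simp only [map_smul, lsub_X, Matrix.mul_apply, Finset.smul_sum, Finset.sum_smul, smul_smul]
  rw [Finset.sum_comm]

theorem lsub_one : lsub (1 : Matrix (Fin 2) (Fin 2) k) = AlgHom.id k (P2 k) := by
  apply algHom_ext
  intro i
  rw [lsub_X, AlgHom.id_apply]
  simp [Matrix.one_apply]

/-- the linear automorphisms -/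
noncomputable def linH : GM k →* (P2 k ≃ₐ[k] P2 k) :=
  MonoidHom.mk' (fun M => AlgEquiv.ofAlgHom (lsub (M⁻¹).val) (lsub M.val)
    (by rw [lsub_comp, ← Units.val_mul, mul_inv_cancel, Units.val_one, lsub_one])
    (by rw [lsub_comp, ← Units.val_mul, inv_mul_cancel, Units.val_one, lsub_one])) (by
    intro M N
    apply AlgEquiv.ext
    intro f
    show lsub ((M * N)⁻¹).val f = lsub (M⁻¹).val (lsub (N⁻¹).val f)
    rw [← AlgHom.comp_apply, lsub_comp, mul_inv_rev, Units.val_mul])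

theorem linH_apply (M : GM k) (f : P2 k) : linH M f = lsub (M⁻¹).val f := rfl

theorem linH_inv_apply (M : GM k) (f : P2 k) : (linH M)⁻¹ f = lsub M.val f := by
  rw [← map_inv, linH_apply, inv_inv]

/-- the linear part is determined -/
theorem lsub_inj : Function.Injective (lsub : Matrix (Fin 2) (Fin 2) k → _) := by
  intro M N h
  ext i j
  have h1 : lsub M (X i) = lsub N (X i) := by rw [h]
  rw [lsub_X, lsub_X] at h1
  have h2 := congrArg (fun f => MvPolynomial.coeff (Finsupp.single j 1) f) h1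
  simp only [MvPolynomial.coeff_sum, MvPolynomial.coeff_smul, MvPolynomial.coeff_X] at h2
  have h3 : ∀ a : Fin 2, (if Finsupp.single a 1 = Finsupp.single j 1 then (1 : k) else 0) =
      if a = j then 1 else 0 := by
    intro a
    by_cases ha : a = j
    · rw [if_pos (by rw [ha]), if_pos ha]
    · rw [if_neg (fun h => ha ((Finsupp.single_left_inj one_ne_zero).1 h)), if_neg ha]
  simp only [h3, smul_eq_mul, mul_ite, mul_one, mul_zero, Finset.sum_ite_eq', Finset.mem_univ,
    if_true] at h2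
  exact h2

theorem linH_inj : Function.Injective (linH : GM k → _) := by
  intro M N h
  have h1 : lsub (M⁻¹).val = lsub (N⁻¹).val := by
    apply AlgHom.ext
    intro f
    rw [← linH_apply, ← linH_apply, h]
  exact inv_injective (Units.ext (lsub_inj h1))

end lin

section tri

variable {k}

/-- `φ` is the triangular automorphism with the data `a`, `b`, `p` -/
def IsTri (φ : P2 k ≃ₐ[k] P2 k) (a b : kˣ) (p : k[X]) : Prop :=
  p.coeff 0 = 0 ∧ φ (X 0) = (a : k) • X 0 + Polynomial.aeval (X 1) p ∧ φ (X 1) = (b : k) • X 1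

theorem aeval_smulX (φ : P2 k →ₐ[k] P2 k) (p : k[X]) (b : k) (h : φ (X 1) = b • X 1) :
    φ (Polynomial.aeval (X 1) p) =
      Polynomial.aeval (X 1) (p.comp (b • Polynomial.X)) := by
  rw [← Polynomial.aeval_algHom_apply, h, Polynomial.aeval_comp, map_smul, Polynomial.aeval_X]

theorem coeff0_comp (p : k[X]) (b : k) : (p.comp (b • Polynomial.X)).coeff 0 = p.coeff 0 := by
  rw [Polynomial.coeff_zero_eq_eval_zero, Polynomial.coeff_zero_eq_eval_zero, Polynomial.eval_comp]
  simp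

theorem coeff1_comp (p : k[X]) (b : k) : (p.comp (b • Polynomial.X)).coeff 1 = p.coeff 1 * b := by
  rw [← Polynomial.C_mul', Polynomial.comp_C_mul_X_coeff, pow_one]

theorem IsTri.mul {φ ψ : P2 k ≃ₐ[k] P2 k} {a b a' b' : kˣ} {p p' : k[X]} (h : IsTri φ a b p)
    (h' : IsTri ψ a' b' p') :
    IsTri (φ * ψ) (a' * a) (b' * b) ((a' : k) • p + p'.comp ((b : k) • Polynomial.X)) := by
  obtain ⟨h0, h1, h2⟩ := h
  obtain ⟨k0, k1, k2⟩ := h'
  refine ⟨?_, ?_, ?_⟩
  · rw [Polynomial.coeff_add, Polynomial.coeff_smul, h0, coeff0_comp, k0, smul_zero, add_zero]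
  · rw [AlgEquiv.mul_apply, k1, map_add, map_smul, h1]
    have := aeval_smulX (φ : P2 k →ₐ[k] P2 k) p' b h2
    rw [show φ (Polynomial.aeval (X 1) p') = _ from this, map_add, map_smul, smul_add, smul_smul,
      Units.val_mul, add_assoc]
  · rw [AlgEquiv.mul_apply, k2, map_smul, h2, smul_smul, Units.val_mul]

theorem isTri_one : IsTri (1 : P2 k ≃ₐ[k] P2 k) 1 1 0 := by
  refine ⟨rfl, ?_, ?_⟩ <;> simp

theorem IsTri.inv {φ : P2 k ≃ₐ[k] P2 k} {a b : kˣ} {p : k[X]} (h : IsTri φ a b p) :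
    IsTri φ⁻¹ a⁻¹ b⁻¹ (-(((a⁻¹ : kˣ) : k) • p.comp (((b⁻¹ : kˣ) : k) • Polynomial.X))) := by
  obtain ⟨h0, h1, h2⟩ := h
  have e1 : φ⁻¹ (X 1) = ((b⁻¹ : kˣ) : k) • X 1 := by
    have : φ⁻¹ (φ (X 1)) = X 1 := φ.symm_apply_apply _
    rw [h2, map_smul] at this
    calc φ⁻¹ (X 1) = ((b⁻¹ : kˣ) : k) • (b : k) • φ⁻¹ (X 1) := by
          rw [smul_smul, Units.inv_mul, one_smul]
      _ = _ := by rw [this]
  refine ⟨?_, ?_, e1⟩
  · rw [Polynomial.coeff_neg, Polynomial.coeff_smul, coeff0_comp, h0, smul_zero, neg_zero]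
  · have : φ⁻¹ (φ (X 0)) = X 0 := φ.symm_apply_apply _
    rw [h1, map_add, map_smul] at this
    have e2 := aeval_smulX ((φ⁻¹ : P2 k ≃ₐ[k] P2 k) : P2 k →ₐ[k] P2 k) p _ e1
    rw [show φ⁻¹ (Polynomial.aeval (X 1) p) = _ from e2] at this
    have e3 := eq_sub_of_add_eq this
    calc φ⁻¹ (X 0) = ((a⁻¹ : kˣ) : k) • (a : k) • φ⁻¹ (X 0) := by
          rw [smul_smul, Units.inv_mul, one_smul]
      _ = ((a⁻¹ : kˣ) : k) • (X 0 - Polynomial.aeval (X 1)
          (p.comp (((b⁻¹ : kˣ) : k) • Polynomial.X))) := by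
        rw [e3]
      _ = _ := by
        rw [smul_sub, map_neg, map_smul, sub_eq_add_neg]

variable (k) in
/-- the triangular automorphisms -/
def Tri : Subgroup (P2 k ≃ₐ[k] P2 k) where
  carrier := {φ | ∃ a b p, IsTri φ a b p}
  one_mem' := ⟨1, 1, 0, isTri_one⟩
  mul_mem' := by
    rintro φ ψ ⟨a, b, p, h⟩ ⟨a', b', p', h'⟩
    exact ⟨_, _, _, h.mul h'⟩
  inv_mem' := by
    rintro φ ⟨a, b, p, h⟩
    exact ⟨_, _, _, h.inv⟩

variable (k) in
/-- restriction to the first axis -/
noncomputable def ax1 : P2 k →ₐ[k] k[X] := aeval ![Polynomial.X, 0]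

variable (k) in
/-- restriction to the second axis -/
noncomputable def ax2 : P2 k →ₐ[k] k[X] := aeval ![0, Polynomial.X]

theorem ax1_0 : ax1 k (X 0) = Polynomial.X := MvPolynomial.aeval_X _ _
theorem ax1_1 : ax1 k (X 1) = 0 := MvPolynomial.aeval_X _ _
theorem ax2_0 : ax2 k (X 0) = 0 := MvPolynomial.aeval_X _ _
theorem ax2_1 : ax2 k (X 1) = Polynomial.X := MvPolynomial.aeval_X _ _

theorem IsTri.ax {φ : P2 k ≃ₐ[k] P2 k} {a b : kˣ} {p : k[X]} (h : IsTri φ a b p) :
    ax1 k (φ (X 0)) = (a : k) • Polynomial.X ∧ ax2 k (φ (X 0)) = p ∧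
      ax1 k (φ (X 1)) = 0 ∧ ax2 k (φ (X 1)) = (b : k) • Polynomial.X := by
  have f1 : ∀ q : k[X], ax1 k (Polynomial.aeval (X 1) q) = Polynomial.C (q.coeff 0) := by
    intro q
    rw [← Polynomial.aeval_algHom_apply, ax1_1, ← Polynomial.coeff_zero_eq_aeval_zero']
    rfl
  have f2 : ∀ q : k[X], ax2 k (Polynomial.aeval (X 1) q) = q := by
    intro q
    rw [← Polynomial.aeval_algHom_apply, ax2_1, Polynomial.aeval_X_left_apply]
  obtain ⟨h0, h1, h2⟩ := h
  refine ⟨?_, ?_, ?_, ?_⟩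
  · rw [h1, map_add, map_smul, ax1_0, f1, h0, map_zero, add_zero]
  · rw [h1, map_add, map_smul, ax2_0, smul_zero, zero_add, f2]
  · rw [h2, map_smul, ax1_1, smul_zero]
  · rw [h2, map_smul, ax2_1]

/-- the data are determined -/
theorem IsTri.unique {φ : P2 k ≃ₐ[k] P2 k} {a b a' b' : kˣ} {p p' : k[X]} (h : IsTri φ a b p)
    (h' : IsTri φ a' b' p') : a = a' ∧ b = b' ∧ p = p' := by
  obtain ⟨u1, u2, _, u3⟩ := h.ax
  obtain ⟨w1, w2, _, w3⟩ := h'.ax
  refine ⟨?_, ?_, u2.symm.trans w2⟩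
  · have := congrArg (fun q => Polynomial.coeff q 1) (u1.symm.trans w1)
    simp only [Polynomial.coeff_smul, Polynomial.coeff_X_one, smul_eq_mul, mul_one] at this
    exact Units.ext this
  · have := congrArg (fun q => Polynomial.coeff q 1) (u3.symm.trans w3)
    simp only [Polynomial.coeff_smul, Polynomial.coeff_X_one, smul_eq_mul, mul_one] at this
    exact Units.ext this

theorem exT (φ : Tri k) : ∃ t : kˣ × kˣ × k[X], IsTri φ.1 t.1 t.2.1 t.2.2 := by
  obtain ⟨a, b, p, h⟩ := φ.2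
  exact ⟨(a, b, p), h⟩

theorem exT_eq (φ : Tri k) {a b : kˣ} {p : k[X]} (h : IsTri φ.1 a b p) :
    (exT φ).choose = (a, b, p) := by
  obtain ⟨e1, e2, e3⟩ := (exT φ).choose_spec.unique h
  exact Prod.ext e1 (Prod.ext e2 e3)

/-- the linear part -/
noncomputable def tauT : Tri k →* GM k :=
  MonoidHom.mk' (fun φ => (ut k (exT φ).choose.1 (exT φ).choose.2.1
    ((exT φ).choose.2.2.coeff 1))⁻¹) (by
    intro φ ψ
    obtain ⟨a, b, p, h1⟩ := φ.2
    obtain ⟨a', b', p', h2⟩ := ψ.2
    rw [exT_eq φ h1, exT_eq ψ h2, exT_eq (φ * ψ) (h1.mul h2), ← mul_inv_rev]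
    congr 1
    apply ext2
    · rw [mul_apply2]
      show _ = _ * _ + _ * (0 : k)
      rw [mul_zero, add_zero]
      rfl
    · rw [mul_apply2]
      show ((a' : k) • p + p'.comp ((b : k) • Polynomial.X)).coeff 1 = _
      rw [Polynomial.coeff_add, Polynomial.coeff_smul, coeff1_comp]
      rfl
    · rw [mul_apply2]
      show (0 : k) = 0 * _ + _ * 0
      rw [zero_mul, mul_zero, add_zero]
    · rw [mul_apply2]
      show _ = (0 : k) * _ + _ * _
      rw [zero_mul, zero_add]
      rfl)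

theorem tauT_eq (φ : Tri k) {a b : kˣ} {p : k[X]} (h : IsTri φ.1 a b p) :
    tauT φ = (ut k a b (p.coeff 1))⁻¹ := by
  show (ut k _ _ _)⁻¹ = _
  rw [exT_eq φ h]

theorem lin_tri {M : GM k} {a b : kˣ} {p : k[X]} (h : IsTri (linH M) a b p) :
    M⁻¹ = ut k a b (p.coeff 1) := by
  obtain ⟨h1, h2, h3, h4⟩ := h.ax
  have e1 : ∀ i, ax1 k (linH M (X i)) = (M⁻¹).val i 0 • Polynomial.X := by
    intro i
    rw [linH_apply, lsub_X, Fin.sum_univ_two, map_add, map_smul, map_smul, ax1_0, ax1_1, smul_zero,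
      add_zero]
  have e2 : ∀ i, ax2 k (linH M (X i)) = (M⁻¹).val i 1 • Polynomial.X := by
    intro i
    rw [linH_apply, lsub_X, Fin.sum_univ_two, map_add, map_smul, map_smul, ax2_0, ax2_1, smul_zero,
      zero_add]
  rw [e1] at h1 h3
  rw [e2] at h2 h4
  have c : ∀ x y : k, x • (Polynomial.X : k[X]) = y • Polynomial.X → x = y := by
    intro x y hxy
    have := congrArg (fun q => Polynomial.coeff q 1) hxy
    simpa only [Polynomial.coeff_smul, Polynomial.coeff_X_one, smul_eq_mul, mul_one] using this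
  apply ext2
  · exact c _ _ h1
  · show _ = p.coeff 1
    rw [← h2, Polynomial.coeff_smul, Polynomial.coeff_X_one, smul_eq_mul, mul_one]
  · refine c _ _ ?_
    rw [h3]
    show (0 : k[X]) = (0 : k) • Polynomial.X
    rw [zero_smul]
  · exact c _ _ h4

end tri

theorem lsub_mem_tri {k : Type} [CommRing k] (M : GM k) (h : M.val 1 0 = 0) : linH M ∈ Tri k := by
  have hdet : IsUnit (M.val.det) := (Matrix.isUnit_iff_isUnit_det _).1 M.isUnit
  rw [Matrix.det_fin_two, h, mul_zero, sub_zero] at hdet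
  obtain ⟨u0, hu0⟩ := isUnit_of_mul_isUnit_left hdet
  obtain ⟨u1, hu1⟩ := isUnit_of_mul_isUnit_right hdet
  have h1 : (linH M)⁻¹ ∈ Tri k := by
    refine ⟨u0, u1, M.val 0 1 • Polynomial.X, by simp, ?_, ?_⟩
    · rw [linH_inv_apply, lsub_X, Fin.sum_univ_two, hu0, map_smul, Polynomial.aeval_X]
    · rw [linH_inv_apply, lsub_X, Fin.sum_univ_two, hu1, h, zero_smul, zero_add]
  exact (Tri k).inv_mem_iff.1 h1

theorem TA_eq : TA k = Tri k ⊔ (linH (k := k)).range := by
  apply le_antisymm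
  · unfold TA
    rw [Subgroup.closure_le]
    rintro φ (⟨M, hM⟩ | ⟨p, h0, h1, h2⟩)
    · refine Subgroup.mem_sup_right ⟨M⁻¹, ?_⟩
      have h1 : (linH M⁻¹ : P2 k ≃ₐ[k] P2 k).toAlgHom = φ.toAlgHom := by
        apply algHom_ext
        intro i
        show linH M⁻¹ (X i) = φ (X i)
        rw [linH_apply, inv_inv, lsub_X, hM]
      apply AlgEquiv.ext
      intro f
      exact DFunLike.congr_fun h1 f
    · refine Subgroup.mem_sup_left ⟨1, 1, p, h0, ?_, ?_⟩
      · rw [h1, Units.val_one, one_smul]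
      · rw [h2, Units.val_one, one_smul]
  · apply sup_le
    · rintro φ ⟨a, b, p, h⟩
      -- `φ` is the product of a linear automorphism and an elementary one
      have hd : (linH (ut k a b 0)) ∈ TA k := by
        refine Subgroup.subset_closure (Or.inl ⟨(ut k a b 0)⁻¹, fun i => ?_⟩)
        rw [linH_apply, lsub_X]
      have hm : linH (ut k a b 0) * φ ∈ TA k := by
        have hl : IsTri (linH (ut k a b 0)) a⁻¹ b⁻¹ 0 := by
          refine ⟨rfl, ?_, ?_⟩
          · rw [linH_apply, lsub_X, Fin.sum_univ_two, map_zero, add_zero]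
            have e1 : (ut k a b 0)⁻¹.val 0 0 = ((a⁻¹ : kˣ) : k) := rfl
            have e2 : (ut k a b 0)⁻¹.val 0 1 = -(((a⁻¹ : kˣ) : k) * 0 * ((b⁻¹ : kˣ) : k)) := rfl
            rw [e1, e2, mul_zero, zero_mul, neg_zero, zero_smul, add_zero]
          · rw [linH_apply, lsub_X, Fin.sum_univ_two]
            have e1 : (ut k a b 0)⁻¹.val 1 0 = 0 := rfl
            have e2 : (ut k a b 0)⁻¹.val 1 1 = ((b⁻¹ : kˣ) : k) := rfl
            rw [e1, e2, zero_smul, zero_add]
        have h2 := hl.mul h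
        rw [smul_zero, zero_add, mul_inv_cancel, mul_inv_cancel] at h2
        refine Subgroup.subset_closure (Or.inr ⟨_, h2.1, ?_, ?_⟩)
        · rw [h2.2.1, Units.val_one, one_smul]
        · rw [h2.2.2, Units.val_one, one_smul]
      have : φ = (linH (ut k a b 0))⁻¹ * (linH (ut k a b 0) * φ) := by group
      rw [this]
      exact mul_mem (inv_mem hd) hm
    · rintro _ ⟨M, rfl⟩
      refine Subgroup.subset_closure (Or.inl ⟨M⁻¹, fun i => ?_⟩)
      rw [linH_apply, lsub_X]

/-- the action on the points over `k[X]` -/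
@[reducible] noncomputable def actP : MulAction (P2 k ≃ₐ[k] P2 k) (P2 k →ₐ[k] k[X]) where
  smul g f := f.comp ((g⁻¹ : P2 k ≃ₐ[k] P2 k) : P2 k →ₐ[k] P2 k)
  one_smul f := by
    apply AlgHom.ext
    intro x
    show f ((1 : P2 k ≃ₐ[k] P2 k)⁻¹ x) = f x
    rw [inv_one]
    rfl
  mul_smul g h f := by
    apply AlgHom.ext
    intro x
    show f ((g * h)⁻¹ x) = f (h⁻¹ (g⁻¹ x))
    rw [mul_inv_rev]
    rfl

variable {C : ∀ (G : Type) [Group G], Prop}

/-- **tame automorphisms fixing the origin** -/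
theorem c_TA (hC : ClosedE C)
    (hab : ∀ (H : Type) [Group H] (A : Subgroup H) [A.Normal], (∀ a ∈ A, ∀ b ∈ A, a * b = b * a) →
      IsCyclic (H ⧸ A) → C H) [IsDomain k] : C ↥(TA k) ↔ C (GM k) := by
  classical
  let _ := actP k
  have hsm : ∀ (g : P2 k ≃ₐ[k] P2 k) (f : P2 k →ₐ[k] k[X]) (x : P2 k), (g • f) x = f (g⁻¹ x) :=
    fun _ _ _ => rfl
  let ρ : (P2 k ≃ₐ[k] P2 k) → (P2 k ≃ₐ[k] P2 k) := fun g =>
    if h : g ∈ Tri k then linH (tauT ⟨g, h⟩) else 1
  have hρe : ∀ (g : P2 k ≃ₐ[k] P2 k) (h : g ∈ Tri k), ρ g = linH (tauT ⟨g, h⟩) :=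
    fun g h => dif_pos h
  have hcne : ∀ (c : k) (P : k[X]), c ≠ 0 → (c • P).natDegree = P.natDegree := by
    intro c P hc
    rw [← Polynomial.C_mul']
    exact Polynomial.natDegree_C_mul hc
  have hcle : ∀ (c : k) (P : k[X]), (c • P).natDegree ≤ P.natDegree :=
    fun c P => Polynomial.natDegree_smul_le c P
  have key := c_gen (C := C) hC (Ω := P2 k →ₐ[k] k[X]) (M := ℕ) (Tri k) (linH (k := k)).range
    {f | 1 ≤ (f (X 1)).natDegree ∧ (f (X 0)).natDegree ≤ (f (X 1)).natDegree}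
    {f | (f (X 1)).natDegree < (f (X 0)).natDegree}
    (fun f => max (f (X 0)).natDegree (f (X 1)).natDegree)
    ⟨aeval ![0, Polynomial.X], by
      have e1 : (aeval ![0, Polynomial.X] : P2 k →ₐ[k] k[X]) (X 1) = Polynomial.X :=
        MvPolynomial.aeval_X _ _
      have e0 : (aeval ![0, Polynomial.X] : P2 k →ₐ[k] k[X]) (X 0) = 0 := MvPolynomial.aeval_X _ _
      show 1 ≤ Polynomial.natDegree _ ∧ Polynomial.natDegree _ ≤ Polynomial.natDegree _
      rw [e0, e1, Polynomial.natDegree_X, Polynomial.natDegree_zero]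
      exact ⟨le_rfl, zero_le_one⟩⟩
    ⟨aeval ![Polynomial.X, 0], by
      have e1 : (aeval ![Polynomial.X, 0] : P2 k →ₐ[k] k[X]) (X 1) = 0 := MvPolynomial.aeval_X _ _
      have e0 : (aeval ![Polynomial.X, 0] : P2 k →ₐ[k] k[X]) (X 0) = Polynomial.X :=
        MvPolynomial.aeval_X _ _
      show Polynomial.natDegree _ < Polynomial.natDegree _
      rw [e0, e1, Polynomial.natDegree_X, Polynomial.natDegree_zero]
      exact zero_lt_one⟩
    ?_ ?_ ρ ?_ ?_ ?_
  · rw [TA_eq, key]
    have e1 : C (linH (k := k)).range ↔ C (GM k) := by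
      let e := MonoidHom.ofInjective (linH_inj (k := k))
      exact ⟨fun h => hC.base.of_injective _ _ e.toMonoidHom e.injective h,
        fun h => hC.base.of_injective _ _ e.symm.toMonoidHom e.symm.injective h⟩
    rw [e1]
    refine ⟨fun h => h.2, fun h => ⟨?_, h⟩⟩
    refine c_abker hC hab (tauT (k := k)) h ?_
    have q : ∀ g : Tri k, tauT g = 1 → ∃ p, IsTri g.1 1 1 p := by
      intro g hg
      obtain ⟨a, b, p, hp⟩ := g.2
      rw [tauT_eq g hp, inv_eq_one] at hg
      have ha : a = 1 := by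
        have : (ut k a b (p.coeff 1)).val 0 0 = 1 := by rw [hg]; rfl
        exact Units.ext this
      have hb : b = 1 := by
        have : (ut k a b (p.coeff 1)).val 1 1 = 1 := by rw [hg]; rfl
        exact Units.ext this
      rw [ha, hb] at hp
      exact ⟨p, hp⟩
    intro g h hg hh
    obtain ⟨p, hp⟩ := q g hg
    obtain ⟨p', hp'⟩ := q h hh
    apply Subtype.ext
    have h1 := hp.mul hp'
    have h2 := hp'.mul hp
    have h3 : (g.1 * h.1).toAlgHom = (h.1 * g.1).toAlgHom := by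
      apply algHom_ext
      intro i
      fin_cases i
      · show (g.1 * h.1) (X 0) = (h.1 * g.1) (X 0)
        rw [h1.2.1, h2.2.1]
        simp only [Units.val_one, one_smul, Polynomial.comp_X, add_comm p p']
      · show (g.1 * h.1) (X 1) = (h.1 * g.1) (X 1)
        rw [h1.2.2, h2.2.2]
    apply AlgEquiv.ext
    intro f
    exact DFunLike.congr_fun h3 f
  · -- triangular automorphisms
    rintro g hg hgL f ⟨hf1, hf2⟩
    obtain ⟨a, b, p, hp⟩ := (Tri k).inv_mem hg
    have hdeg : 2 ≤ p.natDegree := by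
      by_contra hlt
      apply hgL
      have hp1 : p = p.coeff 1 • Polynomial.X := by
        have h := Polynomial.eq_X_add_C_of_natDegree_le_one (p := p) (by omega)
        rw [hp.1, map_zero, add_zero] at h
        rw [← Polynomial.C_mul']
        exact h
      refine ⟨ut k a b (p.coeff 1), ?_⟩
      apply inv_injective
      have h3 : ((linH (ut k a b (p.coeff 1)))⁻¹ : P2 k ≃ₐ[k] P2 k).toAlgHom =
          (g⁻¹ : P2 k ≃ₐ[k] P2 k).toAlgHom := by
        apply algHom_ext
        intro i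
        fin_cases i
        · show (linH (ut k a b (p.coeff 1)))⁻¹ (X 0) = g⁻¹ (X 0)
          rw [linH_inv_apply, lsub_X, Fin.sum_univ_two, hp.2.1]
          have e1 : (ut k a b (p.coeff 1)).val 0 0 = (a : k) := rfl
          have e2 : (ut k a b (p.coeff 1)).val 0 1 = p.coeff 1 := rfl
          rw [e1, e2]
          conv_rhs => rw [hp1]
          rw [map_smul, Polynomial.aeval_X]
        · show (linH (ut k a b (p.coeff 1)))⁻¹ (X 1) = g⁻¹ (X 1)
          rw [linH_inv_apply, lsub_X, Fin.sum_univ_two, hp.2.2]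
          have e1 : (ut k a b (p.coeff 1)).val 1 0 = 0 := rfl
          have e2 : (ut k a b (p.coeff 1)).val 1 1 = (b : k) := rfl
          rw [e1, e2, zero_smul, zero_add]
      apply AlgEquiv.ext
      intro x
      exact DFunLike.congr_fun h3 x
    have h1 : (g • f) (X 1) = (b : k) • f (X 1) := by rw [hsm, hp.2.2, map_smul]
    have h0 : (g • f) (X 0) = (a : k) • f (X 0) + p.comp (f (X 1)) := by
      rw [hsm, hp.2.1, map_add, map_smul, ← Polynomial.aeval_algHom_apply]
      rfl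
    have hd1 : ((g • f) (X 1)).natDegree = (f (X 1)).natDegree := by
      rw [h1]; exact hcne _ _ b.ne_zero
    have hlt : (f (X 1)).natDegree < (p.comp (f (X 1))).natDegree := by
      rw [Polynomial.natDegree_comp]
      nlinarith
    have hd0 : ((g • f) (X 0)).natDegree = (p.comp (f (X 1))).natDegree := by
      rw [h0]
      apply Polynomial.natDegree_add_eq_right_of_natDegree_lt
      exact (hcle _ _).trans_lt (hf2.trans_lt hlt)
    refine ⟨?_, ?_⟩
    · show ((g • f) (X 1)).natDegree < ((g • f) (X 0)).natDegree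
      rw [hd1, hd0]; exact hlt
    · show max (f (X 0)).natDegree (f (X 1)).natDegree <
        max ((g • f) (X 0)).natDegree ((g • f) (X 1)).natDegree
      rw [max_eq_right hf2, hd0]
      exact lt_max_of_lt_left hlt
  · -- linear automorphisms
    rintro _ ⟨M, rfl⟩ hU f hf
    have hf' : (f (X 1)).natDegree < (f (X 0)).natDegree := hf
    have h10 : M.val 1 0 ≠ 0 := fun h => hU (lsub_mem_tri M h)
    have he : ∀ i, (linH M • f) (X i) = M.val i 0 • f (X 0) + M.val i 1 • f (X 1) := by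
      intro i
      rw [hsm, linH_inv_apply, lsub_X, Fin.sum_univ_two, map_add, map_smul, map_smul]
    have h1 : ((linH M • f) (X 1)).natDegree = (f (X 0)).natDegree := by
      rw [he, Polynomial.natDegree_add_eq_left_of_natDegree_lt, hcne _ _ h10]
      rw [hcne _ _ h10]
      exact (hcle _ _).trans_lt hf'
    have h0 : ((linH M • f) (X 0)).natDegree ≤ (f (X 0)).natDegree := by
      rw [he]
      exact (Polynomial.natDegree_add_le _ _).trans (max_le (hcle _ _) ((hcle _ _).trans hf'.le))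
    refine ⟨⟨?_, ?_⟩, ?_⟩
    · rw [h1]; omega
    · rw [h1]; exact h0
    · show max (f (X 0)).natDegree (f (X 1)).natDegree ≤
        max ((linH M • f) (X 0)).natDegree ((linH M • f) (X 1)).natDegree
      rw [max_eq_left hf'.le, h1]
      exact le_max_right _ _
  · intro g hg
    rw [hρe g hg]
    refine ⟨?_, ⟨_, rfl⟩⟩
    obtain ⟨a, b, p, hp⟩ := id hg
    rw [tauT_eq ⟨g, hg⟩ hp, map_inv]
    exact (Tri k).inv_mem (lsub_mem_tri _ rfl)
  · intro g hg h hh
    rw [hρe g hg, hρe h hh, hρe _ (mul_mem hg hh), ← map_mul, ← map_mul]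
    rfl
  · rintro g ⟨hg, M, rfl⟩
    rw [hρe _ hg]
    congr 1
    obtain ⟨a, b, p, hp⟩ := hg
    rw [tauT_eq ⟨linH M, ⟨a, b, p, hp⟩⟩ hp]
    rw [← lin_tri hp, inv_inv]

end Pool.Agent.X265.Ngo
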